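import Mathlib
import Pool.Agent.Lib.H55B.J0

/-!
# H55C: definitions for stage 2

The 2-part of the Birch and Swinnerton-Dyer conjecture for y^2 + y = x^3 over 2-extensions of
the field of cube roots of unity. See PROOF.md.
-/

open NumberField IsDedekindDomain Polynomial

namespace H55C

open H55B

/-- Good primes of the Eisenstein integers: not above 2 or 3, and 2 is not a cube modulo v. -/
def Good (v : HeightOneSpectrum O) : Prop :=
  (2 : O) ∉ v.asIdeal ∧ (3 : O) ∉ v.asIdeal ∧ ¬ ∃ x : O, x ^ 3 - 2 ∈ v.asIdeal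

/-- K/F is unramified outside the good primes. -/
def UnrOut (K : Type) [Field K] [NumberField K] [Algebra F K] : Prop :=
  ∀ (w : HeightOneSpectrum (𝓞 K)) (v : HeightOneSpectrum O), v.asIdeal = w.asIdeal.under O →
    ¬ Good v → w.asIdeal.ramificationIdx O = 1

/-- The cubic algebra k[T]/(T^3 - 2). -/
abbrev Cub (k : Type) [Field k] : Type := AdjoinRoot (X ^ 3 - C 2 : k[X])

/-- Functoriality of the cubic algebra. -/
noncomputable def cmap {k k' : Type} [Field k] [Field k'] (f : k →+* k') : Cub k →+* Cub k' :=
  AdjoinRoot.map f _ _ (by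
    rw [Polynomial.map_sub, Polynomial.map_pow, Polynomial.map_X, Polynomial.map_C, map_ofNat f])

/-- The image of the local Kummer map: m is 2(2x + T) up to squares for a point (x, y) of
y^2 + y = x^3 over k which is not of order two. -/
def LocIm (k : Type) [Field k] (m : Cub k) : Prop :=
  ∃ x y : k, y ^ 2 + y = x ^ 3 ∧ 2 * y + 1 ≠ 0 ∧
    ∃ b : Cub k, m * (2 * (2 * AdjoinRoot.of _ x + AdjoinRoot.root _)) = b ^ 2

/-- Representatives of the 2-Selmer group of E27 over K: invertible elements of the cubic algebra of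
square norm, everywhere locally in the image of the Kummer map. -/
def Sel (K : Type) [Field K] [NumberField K] : Set (Cub K) :=
  {m | IsUnit m ∧ (∃ n : K, Algebra.norm K m = n ^ 2) ∧
    ∀ w : HeightOneSpectrum (𝓞 K),
      LocIm (w.adicCompletion K) (cmap (algebraMap K (w.adicCompletion K)) m)}

/-- Good moduli. -/
def GoodMod (α : O) : Prop :=
  Squarefree α ∧ ¬ IsUnit α ∧ ∀ v : HeightOneSpectrum O, α ∈ v.asIdeal → Good v

/-- α is a modulus of K/F: K/F is unramified at the primes not dividing α, and there is a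
homomorphism from the units modulo α to the Galois group sending the class of every prime element p not
dividing 3 and α to a Frobenius element at every prime above p. -/
def IsModulus (K : Type) [Field K] [NumberField K] [Algebra F K] (α : O) : Prop :=
  (∀ w : HeightOneSpectrum (𝓞 K), algebraMap O (𝓞 K) α ∉ w.asIdeal → w.asIdeal.ramificationIdx O = 1) ∧
  ∃ ρ : (O ⧸ Ideal.span {α})ˣ →* (K ≃ₐ[F] K),
    ∀ (p : O) (w : HeightOneSpectrum (𝓞 K)) (u : (O ⧸ Ideal.span {α})ˣ),
      (3 : 𝓞 K) ∉ w.asIdeal → w.asIdeal.under O = Ideal.span {p} →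
      (u : O ⧸ Ideal.span {α}) = Ideal.Quotient.mk _ p →
      ∀ y : 𝓞 K, ρ u • y - y ^ Nat.card (O ⧸ Ideal.span {p}) ∈ w.asIdeal

/-- z is a 2-adic unit: a unit for all valuations of the complex numbers above 2. -/
def Unit2 (z : ℂ) : Prop := ∀ A : ValuationSubring ℂ, A.valuation 2 < 1 → A.valuation z = 1

/-- Twice the area of a period parallelogram. -/
noncomputable def Om (L : PeriodPair) : ℝ := 2 * |L.ω₁.re * L.ω₂.im - L.ω₁.im * L.ω₂.re|

open Classical in
/-- Points of E27 over the completion with nonsingular reduction (of the minimal equation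
y^2 + y = x^3): the partial derivatives 3x^2 and 2y + 1 do not both reduce to 0. -/
def E0 (K : Type) [Field K] [NumberField K] [Algebra F K] (w : HeightOneSpectrum (𝓞 K)) :
    Set (E27.baseChange (w.adicCompletion K)).toAffine.Point :=
  {P | P = 0 ∨ ∃ (x y : w.adicCompletion K)
    (h : (E27.baseChange (w.adicCompletion K)).toAffine.Nonsingular x y),
    P = WeierstrassCurve.Affine.Point.some x y h ∧
      (1 ≤ Valued.v (3 * x ^ 2) ∨ 1 ≤ Valued.v (2 * y + 1))}

open Classical in
/-- The Tamagawa number. -/
noncomputable def tam (K : Type) [Field K] [NumberField K] [Algebra F K]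
    (w : HeightOneSpectrum (𝓞 K)) : ℕ := (AddSubgroup.closure (E0 K w)).index

/-- The analytic order of the Tate-Shafarevich group of E27 over K predicted by the formula of Birch and
Swinnerton-Dyer in rank 0; L1 is the value of the L-function at 1. -/
noncomputable def shaAn (K : Type) [Field K] [NumberField K] [Algebra F K] (L : PeriodPair) (L1 : ℂ) :
    ℂ :=
  L1 * (Real.sqrt |(NumberField.discr K : ℝ)| : ℝ) *
    (Nat.card (E27.baseChange K).toAffine.Point : ℂ) ^ 2 /
    ((Om L : ℂ) ^ NumberField.InfinitePlace.nrComplexPlaces K *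
      ∏ᶠ w : HeightOneSpectrum (𝓞 K), (tam K w : ℂ))

/-- Multiplicative even functions modulo α with values roots of unity of 2-power order. -/
structure Chr (α : O) (f : O → ℂ) : Prop where
  per : ∀ x y, f (x + α * y) = f x
  mul : ∀ x y, f (x * y) = f x * f y
  even : ∀ x, f (-x) = f x
  root : ∃ k : ℕ, ∀ x, IsCoprime x α → f x ^ (2 ^ k) = 1
  zero : ∀ x, ¬ IsCoprime x α → f x = 0

open Classical in
/-- The function on O attached to a character of the Galois group. -/
noncomputable def chf {G : Type} [Group G] (α : O) (ρ : (O ⧸ Ideal.span {α})ˣ →* G) (χ : G →* ℂˣ)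
    (x : O) : ℂ :=
  if h : IsUnit (Ideal.Quotient.mk (Ideal.span {α}) x) then ((χ (ρ h.unit) : ℂˣ) : ℂ) else 0

/-- The local Euler factor of E27 at w, with complex coefficients. -/
noncomputable def LEF (K : Type) [Field K] [NumberField K] (w : HeightOneSpectrum (𝓞 K)) :
    ArithmeticFunction ℂ :=
  ((((E27.baseChange K).baseChange (w.adicCompletion K)).localEulerFactor
    (w.adicCompletionIntegers K) : ArithmeticFunction ℤ) : ArithmeticFunction ℂ)

/-- The compositum N of K and M = F(theta) (theta^3 = 2), with T the automorphism of order 3 over K and the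
action of the Galois group of K/F fixing M. -/
structure Comp (K M L N : Type) [Field K] [NumberField K] [Algebra F K] [Field M] [NumberField M]
    [Algebra F M] [Field L] [NumberField L] [Algebra L M] [Field N] [NumberField N] [Algebra K N]
    [Algebra M N] (θ : M) (t : L) (τ σ : M ≃+* M) (T : N ≃+* N) (act : (K ≃ₐ[F] K) → (N ≃+* N)) :
    Prop where
  sex : Sextic M L θ t τ σ
  tower : ∀ x : F, algebraMap K N (algebraMap F K x) = algebraMap M N (algebraMap F M x)
  span : ∀ z : N, ∃ a b c : K, z = algebraMap K N a + algebraMap K N b * algebraMap M N θ +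
    algebraMap K N c * algebraMap M N θ ^ 2
  indep : ∀ a b c : K, algebraMap K N a + algebraMap K N b * algebraMap M N θ +
    algebraMap K N c * algebraMap M N θ ^ 2 = 0 → a = 0 ∧ b = 0 ∧ c = 0
  T_K : ∀ x : K, T (algebraMap K N x) = algebraMap K N x
  T_M : ∀ z : M, T (algebraMap M N z) = algebraMap M N (τ z)
  act_K : ∀ (g : K ≃ₐ[F] K) (x : K), act g (algebraMap K N x) = algebraMap K N (g x)
  act_M : ∀ (g : K ≃ₐ[F] K) (z : M), act g (algebraMap M N z) = algebraMap M N z

/-- The Selmer conditions on an element m of N: square norm, even valuations, and a congruence condition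
above 2. -/
structure Cond (K N : Type) [Field K] [NumberField K] [Field N] [NumberField N] [Algebra K N]
    (ϑ : N) (T : N ≃+* N) (m : N) : Prop where
  ne : m ≠ 0
  norm : ∃ n : K, n ≠ 0 ∧ m * T m * T (T m) = algebraMap K N n ^ 2
  even : ∀ P : HeightOneSpectrum (𝓞 N), ∃ k : ℤ, P.valuation N m = WithZero.exp (2 * k)
  two : ∀ P : HeightOneSpectrum (𝓞 N), (2 : 𝓞 N) ∈ P.asIdeal →
    ∃ b : N, b ≠ 0 ∧ P.valuation N (m / b ^ 2 - 1) ≤ P.valuation N (ϑ ^ 2)

end H55C
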